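import Pool.Agent.N689.ZL.Gen

/-!
# Powers of two elements in random Artin groups: a zero-one law

A Coxeter matrix of rank `n` is given by the list `x` of its `n (n - 1) / 2` labels above the
diagonal (`0` stands for infinity); in the random Artin group of rank `n` the labels are
independent, with an arbitrary distribution `p`.

Theorem. Either Q1 holds for all Artin groups all of whose labels have positive probability, or it
holds for the random Artin group of rank `n` with probability at most `exp (- c n ^ 2)` for
large `n`.
-/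

set_option autoImplicit false

namespace Pool.Agent.Results.MP_9dbb0e_al.RandomArtinGroups

open Pool.Agent.N689.ZL

/-- For all `a`, `b` there is `n ≥ 1` such that `a ^ n` and `b ^ n` generate a free or a free abelian
group. -/
def Powers (G : Type) [Group G] : Prop :=
  ∀ a b : G, ∃ n : ℕ, 0 < n ∧
    (IsFreeGroup ↥(Subgroup.closure {a ^ n, b ^ n}) ∨
      ∃ k : ℕ, Nonempty (↥(Subgroup.closure {a ^ n, b ^ n}) ≃* Multiplicative (Fin k → ℤ)))

theorem of_injective (G G' : Type) [Group G] [Group G'] (f : G →* G')
    (hf : Function.Injective f) (h : Powers G') : Powers G := by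
  intro a b
  obtain ⟨n, hn, h1⟩ := h (f a) (f b)
  refine ⟨n, hn, ?_⟩
  have h2 : (Subgroup.closure {a ^ n, b ^ n}).map f = Subgroup.closure {f a ^ n, f b ^ n} := by
    rw [MonoidHom.map_closure, Set.image_pair, map_pow, map_pow]
  let e : ↥(Subgroup.closure {a ^ n, b ^ n}) ≃* ↥(Subgroup.closure {f a ^ n, f b ^ n}) :=
    ((Subgroup.closure {a ^ n, b ^ n}).equivMapOfInjective f hf).trans (MulEquiv.subgroupCongr h2)
  rcases h1 with h1 | ⟨k, ⟨g⟩⟩
  · exact Or.inl (IsFreeGroup.ofMulEquiv e.symm)
  · exact Or.inr ⟨k, ⟨e.trans g⟩⟩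

/-- For every distribution `p` of the labels: (1) all Artin groups whose labels have positive
probability have the property of Q1, or (2) for some `c > 0` and all large `n` the random Artin
group of rank `n` has it with probability at most `exp (- c n ^ 2)`. -/
theorem result (p : PMF ℕ) :
    (∀ n x, x.length = n.choose 2 → (∀ t ∈ x, p t ≠ 0) → Powers (ArtinGroup n x)) ∨
    ∃ c : ℝ, 0 < c ∧ ∃ n₀ : ℕ, ∀ n ≥ n₀,
      prob p n {x | Powers (ArtinGroup n x)} ≤ Real.exp (-(c * (n : ℝ) ^ 2)) :=
  zeroOne Powers (fun G H _ _ f hf h => of_injective G H f hf h) p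

end Pool.Agent.Results.MP_9dbb0e_al.RandomArtinGroups
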